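import Pool.Agent.W2helper37.SG.Stm

/-!
# Project SG: the action on the dual (piece DUL)
-/

set_option autoImplicit false
set_option linter.unusedSectionVars false
set_option linter.unusedSimpArgs false
set_option backward.isDefEq.respectTransparency false
set_option backward.defeqAttrib.useBackward true

open CategoryTheory Limits MonoidalCategory
open Pool.Agent.Y112.SR Pool.Agent.Y112.SC
open Pool.Agent.Y112.KD hiding cc
open Pool.Agent.W2helper37.SG

namespace Pool.Agent.W2helper20.SG

universe v u w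

section Lin

variable {K : Type w} [Field K] {ι : Type} [Fintype ι] [DecidableEq ι]

theorem sg_sq (b : Bool) : sg K b * sg K b = 1 := by cases b <;> simp [sg]

/-- Matrix units come from a basis. -/
theorem exists_basis [CharZero K] {V : Type w} [AddCommGroup V] [Module K V] [Module.Finite K V]
    (E : ι → ι → Module.End K V)
    (mul : ∀ i k j l, E j l * E i k = if k = j then E i l else 0)
    (sum : ∑ i, E i i = 1) (tr : ∀ i, LinearMap.trace K V (E i i) = 1) :
    ∃ v : Module.Basis ι K V, ∀ i k j, E i k (v j) = if j = i then v k else 0 := by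
  rcases isEmpty_or_nonempty ι with h | h
  · have h1 : Subsingleton V := by
      refine ⟨fun a b => ?_⟩
      have h2 : ∀ a : V, a = 0 := fun a => by
        have h3 := LinearMap.congr_fun sum a
        rw [Finset.univ_eq_empty, Finset.sum_empty] at h3
        exact h3.symm
      rw [h2 a, h2 b]
    exact ⟨Module.Basis.empty V, fun i => (IsEmpty.false i).elim⟩
  · obtain ⟨i0⟩ := h
    have h1 : E i0 i0 ≠ 0 := by
      intro h
      have := tr i0
      rw [h, map_zero] at this
      exact zero_ne_one this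
    obtain ⟨x, hx⟩ : ∃ x, E i0 i0 x ≠ 0 := by
      by_contra hcon
      push Not at hcon
      exact h1 (LinearMap.ext hcon)
    have h2 : ∀ i k j, E i k (E i0 j x) = if j = i then E i0 k x else 0 := by
      intro i k j
      have := LinearMap.congr_fun (mul i0 j i k) x
      rw [Module.End.mul_apply] at this
      rw [this]
      split_ifs <;> rfl
    have h3 : LinearIndependent K fun k => E i0 k x := by
      rw [Fintype.linearIndependent_iff]
      intro g hg j
      have h4 := congrArg (E j i0) hg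
      rw [map_sum, map_zero] at h4
      simp only [map_smul, h2, smul_ite, smul_zero, Finset.sum_ite_eq', Finset.mem_univ,
        if_true] at h4
      exact (smul_eq_zero.1 h4).resolve_right hx
    have h4 : Fintype.card ι = Module.finrank K V := by
      have h5 := congrArg (LinearMap.trace K V) sum
      rw [map_sum, LinearMap.trace_one] at h5
      simp only [tr, Finset.sum_const, Finset.card_univ, nsmul_eq_mul, mul_one] at h5
      exact_mod_cast h5
    have : Nonempty ι := ⟨i0⟩
    refine ⟨basisOfLinearIndependentOfCardEqFinrank h3 h4, ?_⟩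
    intro i k j
    rw [coe_basisOfLinearIndependentOfCardEqFinrank]
    exact h2 i k j

/-- expansion of a tensor in a basis of the left factor -/
theorem exists_expand {V W : Type w} [AddCommGroup V] [Module K V] [AddCommGroup W] [Module K W]
    (v : Module.Basis ι K V) (c : TensorProduct K V W) :
    ∃ w : ι → W, c = ∑ k, v k ⊗ₜ[K] w k := by
  induction c using TensorProduct.induction_on with
  | zero => exact ⟨0, by simp⟩
  | tmul x y =>
    refine ⟨fun k => v.repr x k • y, ?_⟩
    conv_lhs => rw [← v.sum_repr x, TensorProduct.sum_tmul]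
    exact Finset.sum_congr rfl fun k _ => by rw [TensorProduct.tmul_smul, TensorProduct.smul_tmul']
  | add a b ha hb =>
    obtain ⟨w1, h1⟩ := ha
    obtain ⟨w2, h2⟩ := hb
    refine ⟨fun k => w1 k + w2 k, ?_⟩
    rw [h1, h2, ← Finset.sum_add_distrib]
    exact Finset.sum_congr rfl fun k _ => by rw [TensorProduct.tmul_add]

theorem trace_smulRight {W : Type w} [AddCommGroup W] [Module K W] [Module.Finite K W]
    (f : W →ₗ[K] K) (x : W) : LinearMap.trace K W (f.smulRight x) = f x := by
  have h1 : f.smulRight x = (LinearMap.toSpanSingleton K W x) ∘ₗ f := by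
    ext y
    simp
  rw [h1, LinearMap.trace_comp_comm']
  have h2 : f ∘ₗ LinearMap.toSpanSingleton K W x = (f x) • LinearMap.id := by
    ext
    simp
  rw [h2, map_smul, LinearMap.trace_id, Module.finrank_self]
  simp

theorem tensor_ext_basis {V W L : Type w} [AddCommGroup V] [Module K V] [AddCommGroup W]
    [Module K W] [AddCommGroup L] [Module K L] (v : Module.Basis ι K V)
    (f g : TensorProduct K V W →ₗ[K] L) (h : ∀ p y, f (v p ⊗ₜ y) = g (v p ⊗ₜ y)) : f = g :=
  TensorProduct.ext (v.ext fun p => LinearMap.ext fun y => h p y)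

theorem glRel_dual {o : ι → Bool} {V : Type w} [AddCommGroup V] [Module K V]
    (E : ι → ι → Module.End K V) (mul : ∀ i k j l, E j l * E i k = if k = j then E i l else 0) :
    GlRel o (fun k i => -(sg K (o i)) • E i k) := by
  intro k i l j
  simp only [smul_mul_smul_comm, mul]
  by_cases h1 : l = i
  · subst h1
    by_cases h2 : k = j
    · subst h2
      cases o l <;> cases o k <;> simp [cc, sg] <;> abel
    · simp only [if_true, if_neg h2, if_neg (Ne.symm h2)]
      cases o l <;> cases o k <;> cases o j <;> simp [cc, sg]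
  · by_cases h2 : k = j
    · subst h2
      simp only [if_true, if_neg h1]
      cases o i <;> cases o k <;> cases o l <;> simp [cc, sg]
    · simp [h1, h2, Ne.symm h2]

theorem parRel_scal {o : ι → Bool} {V : Type w} [AddCommGroup V] [Module K V]
    (E : ι → ι → Module.End K V) (mul : ∀ i k j l, E j l * E i k = if k = j then E i l else 0)
    (s : Module.End K V) (hs : s = ∑ i, sg K (o i) • E i i) (a : ι → ι → K) :
    ParRel o s (fun k i => a k i • E i k) := by
  intro k i
  have h1 : s * E i k = sg K (o k) • E i k := by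
    rw [hs, Finset.sum_mul, Finset.sum_eq_single k]
    · rw [smul_mul_assoc, mul, if_pos rfl]
    · intro j _ hj
      rw [smul_mul_assoc, mul, if_neg hj.symm, smul_zero]
    · intro h
      exact absurd (Finset.mem_univ k) h
  have h2 : E i k * s = sg K (o i) • E i k := by
    rw [hs, Finset.mul_sum, Finset.sum_eq_single i]
    · rw [mul_smul_comm, mul, if_pos rfl]
    · intro j _ hj
      rw [mul_smul_comm, mul, if_neg hj, smul_zero]
    · intro h
      exact absurd (Finset.mem_univ i) h
  rw [mul_smul_comm, smul_mul_assoc, h1, h2, smul_smul, smul_smul, smul_smul]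
  congr 1
  have := sg_sq (K := K) (o i)
  linear_combination (-a k i * sg K (o k)) * this

end Lin

section

variable {C : Type u} [Category.{v} C] [Preadditive C] [MonoidalCategory C] [SymmetricCategory C]
  [RightRigidCategory C] {K : Type w} [Field K] (R : SuperRealisation C K)

open Functor.LaxMonoidal Functor.OplaxMonoidal

lemma zigzag' (N : C) : R.H.obj Nᘁ ◁ coe R N ≫ (α_ _ _ _).inv ≫ evb R N ▷ R.H.obj Nᘁ =
    (ρ_ (R.H.obj Nᘁ)).hom ≫ (λ_ (R.H.obj Nᘁ)).inv := by
  rw [← cancel_mono (λ_ (R.H.obj Nᘁ)).hom]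
  simp only [Category.assoc, Iso.inv_hom_id, Category.comp_id]
  have h3 : (λ_ (R.H.obj Nᘁ)).hom = ε R.H ▷ R.H.obj Nᘁ ≫ μ R.H (𝟙_ C) Nᘁ ≫
      R.H.map (λ_ Nᘁ).hom :=
    Functor.LaxMonoidal.left_unitality R.H Nᘁ
  rw [h3, coe, evb]
  simp only [comp_whiskerRight, MonoidalCategory.whiskerLeft_comp, Category.assoc]
  have h4 : η R.H ▷ R.H.obj Nᘁ ≫ ε R.H ▷ R.H.obj Nᘁ = 𝟙 _ := by
    rw [← comp_whiskerRight, Functor.Monoidal.η_ε, id_whiskerRight]
  rw [reassoc_of% h4, μ_natural_left_assoc]
  have h5 := Functor.LaxMonoidal.associativity_inv (F := R.H) Nᘁ N Nᘁ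
  have h6 : (R.H.obj Nᘁ ◁ δ R.H N Nᘁ) ≫ (R.H.obj Nᘁ ◁ μ R.H N Nᘁ) = 𝟙 _ := by
    rw [← MonoidalCategory.whiskerLeft_comp, Functor.Monoidal.δ_μ, MonoidalCategory.whiskerLeft_id]
  rw [← reassoc_of% h5, reassoc_of% h6, μ_natural_right_assoc, ← Functor.map_comp,
    ← Functor.map_comp, ← Functor.map_comp]
  have h7 : Nᘁ ◁ η_ N Nᘁ ≫ (α_ Nᘁ N Nᘁ).inv ≫ ε_ N Nᘁ ▷ Nᘁ ≫ (λ_ Nᘁ).hom = (ρ_ Nᘁ).hom := by
    rw [ExactPairing.coevaluation_evaluation_assoc]
    simp
  rw [h7]
  exact (Functor.LaxMonoidal.right_unitality R.H Nᘁ).symm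

/-- the pairing -/
noncomputable def B (M : C) : R.H.obj Mᘁ →ₗ[K] R.H.obj M →ₗ[K] K :=
  TensorProduct.curry (evb R M).hom

theorem zz1 {M : C} {ι : Type} [Fintype ι] {v : ι → R.H.obj M} {y : ι → R.H.obj Mᘁ}
    (hc : (coe R M).hom (1 : K) = ∑ k, v k ⊗ₜ[K] y k) (x : R.H.obj M) :
    ∑ k, B R M (y k) x • v k = x := by
  have h1 := LinearMap.congr_fun (congrArg ModuleCat.Hom.hom (zigzag R M)) ((1 : K) ⊗ₜ[K] x)
  have h2 : (coe R M ▷ R.H.obj M ≫ (α_ _ _ _).hom ≫ R.H.obj M ◁ evb R M).hom ((1 : K) ⊗ₜ[K] x) =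
      ∑ k, (v k) ⊗ₜ[K] (B R M (y k) x) := by
    change (R.H.obj M ◁ evb R M).hom ((α_ (R.H.obj M) (R.H.obj Mᘁ) (R.H.obj M)).hom.hom
      ((coe R M).hom (1 : K) ⊗ₜ[K] x)) = _
    rw [hc, TensorProduct.sum_tmul, map_sum, map_sum]
    rfl
  have h3 : ((λ_ (R.H.obj M)).hom ≫ (ρ_ (R.H.obj M)).inv).hom ((1 : K) ⊗ₜ[K] x) =
      x ⊗ₜ[K] (1 : K) := by
    change (ρ_ (R.H.obj M)).inv.hom ((1 : K) • x) = _
    rw [one_smul]
    rfl
  have h4 := congrArg (TensorProduct.rid K (R.H.obj M)) ((h2.symm.trans h1).trans h3)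
  rw [map_sum] at h4
  simpa using h4

theorem zz2 {M : C} {ι : Type} [Fintype ι] {v : ι → R.H.obj M} {y : ι → R.H.obj Mᘁ}
    (hc : (coe R M).hom (1 : K) = ∑ k, v k ⊗ₜ[K] y k) (x : R.H.obj Mᘁ) :
    ∑ k, B R M x (v k) • y k = x := by
  have h1 := LinearMap.congr_fun (congrArg ModuleCat.Hom.hom (zigzag' R M)) (x ⊗ₜ[K] (1 : K))
  have h2 : (R.H.obj Mᘁ ◁ coe R M ≫ (α_ _ _ _).inv ≫ evb R M ▷ R.H.obj Mᘁ).hom
      (x ⊗ₜ[K] (1 : K)) = ∑ k, (B R M x (v k)) ⊗ₜ[K] (y k) := by
    change (evb R M ▷ R.H.obj Mᘁ).hom ((α_ (R.H.obj Mᘁ) (R.H.obj M) (R.H.obj Mᘁ)).inv.hom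
      (x ⊗ₜ[K] (coe R M).hom (1 : K))) = _
    rw [hc, TensorProduct.tmul_sum, map_sum, map_sum]
    rfl
  have h3 : ((ρ_ (R.H.obj Mᘁ)).hom ≫ (λ_ (R.H.obj Mᘁ)).inv).hom (x ⊗ₜ[K] (1 : K)) =
      (1 : K) ⊗ₜ[K] x := by
    change (λ_ (R.H.obj Mᘁ)).inv.hom ((1 : K) • x) = _
    rw [one_smul]
    rfl
  have h4 := congrArg (TensorProduct.lid K (R.H.obj Mᘁ)) ((h2.symm.trans h1).trans h3)
  rw [map_sum] at h4
  simpa using h4

theorem B_par (M : C) (y : R.H.obj Mᘁ) (x : R.H.obj M) :
    B R M ((R.par Mᘁ).hom y) ((R.par M).hom x) = B R M y x :=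
  LinearMap.congr_fun (congrArg ModuleCat.Hom.hom (evb_even R M)) (y ⊗ₜ[K] x)

theorem eva_apply (h2 : (2 : K) ≠ 0) (M : C) (x : R.H.obj M) (y : R.H.obj Mᘁ) :
    (eva R M).hom (x ⊗ₜ[K] y) = B R M y ((R.par M).hom x) := by
  rw [eva_eq R h2]
  rfl

theorem map_omD (M : C) : R.H.map (omD M) = δ R.H M Mᘁ ≫ (-(eva R M ≫ coe R M)) ≫ μ R.H M Mᘁ := by
  rw [omD, Functor.map_neg, Functor.map_comp, Functor.map_comp, eva, coe]
  simp only [Preadditive.neg_comp, Preadditive.comp_neg, Category.assoc, Functor.map_comp,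
    Functor.Monoidal.δ_μ, Category.comp_id, Functor.Monoidal.δ_μ_assoc, Functor.Monoidal.η_ε_assoc]

variable {ι : Type} [Fintype ι] [DecidableEq ι] {o : ι → Bool} {X : C}
  {E : ι → ι → (R.H.obj X ⟶ R.H.obj X)}

theorem units_mul (hU : Units R X o E) (i k j l : ι) :
    ((E j l).hom * (E i k).hom : Module.End K (R.H.obj X)) = if k = j then (E i l).hom else 0 := by
  have := congrArg ModuleCat.Hom.hom (hU.mul i k j l)
  rw [ModuleCat.hom_comp] at this
  rw [Module.End.mul_eq_comp, this]
  split_ifs <;> rfl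

theorem units_sum (hU : Units R X o E) : ∑ i, (E i i).hom = (1 : Module.End K (R.H.obj X)) := by
  have := congrArg ModuleCat.Hom.hom hU.sum
  rw [ModuleCat.hom_sum] at this
  exact this

theorem units_par (hU : Units R X o E) : (R.par X).hom = ∑ i, sg K (o i) • (E i i).hom := by
  have := congrArg ModuleCat.Hom.hom hU.par
  rw [ModuleCat.hom_sum] at this
  exact this

theorem units_basis [CharZero K] (hU : Units R X o E) : ∃ v : Module.Basis ι K (R.H.obj X),
    ∀ i k j, (E i k).hom (v j) = if j = i then v k else 0 := by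
  have := R.finite X
  exact exists_basis (fun i k => (E i k).hom) (units_mul R hU) (units_sum R hU)
    (fun i => by rw [hU.tr, if_pos rfl])

theorem units_par_basis (hU : Units R X o E) {v : ι → R.H.obj X}
    (hv : ∀ i k j, (E i k).hom (v j) = if j = i then v k else 0) (j : ι) :
    (R.par X).hom (v j) = sg K (o j) • v j := by
  rw [units_par R hU, LinearMap.sum_apply, Finset.sum_eq_single j]
  · rw [LinearMap.smul_apply, hv, if_pos rfl]
  · intro i _ hi
    rw [LinearMap.smul_apply, hv, if_neg hi.symm, smul_zero]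
  · intro h
    exact absurd (Finset.mem_univ j) h

theorem wt_units [CharZero K] (hU : Units R X o E) (t : ℤ) (ht : t = 1 ∨ t = -1)
    (A : ι → ι → Module.End K (R.H.obj X))
    (hA : ∀ i, A i i = ((t : K) * sg K (o i)) • (E i i).hom) : Wt R o X A := by
  obtain ⟨v, hv⟩ := units_basis R hU
  refine ⟨⟨ι, inferInstance, v, fun j => if o j then t else 0, fun x => ?_, fun x => ?_⟩, t, ?_⟩
  · rw [LinearMap.sum_apply]
    by_cases hx : o x = true
    · rw [Finset.sum_eq_single x]
      · rw [hA, LinearMap.smul_apply, hv, if_pos rfl, hx]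
        simp [sg, hx]
      · intro j _ hj
        rw [hA, LinearMap.smul_apply, hv, if_neg hj.symm, smul_zero]
      · intro h
        exact absurd (by rw [Finset.mem_filter]; exact ⟨Finset.mem_univ x, hx⟩) h
    · rw [Finset.sum_eq_zero]
      · simp [hx]
      · intro j hj
        rw [hA, LinearMap.smul_apply, hv, if_neg, smul_zero]
        rintro rfl
        exact hx (Finset.mem_filter.1 hj).2
  · rw [units_par_basis R hU hv]
    cases hx : o x
    · simp [sg, hx]
    · rcases ht with rfl | rfl <;> simp [sg, hx]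
  · have h1 : ∑ i with o i = false, A i i = (t : K) • ∑ i with o i = false, (E i i).hom := by
      rw [Finset.smul_sum]
      refine Finset.sum_congr rfl fun i hi => ?_
      rw [hA, (Finset.mem_filter.1 hi).2]
      simp [sg]
    have h2 : ∑ i with o i = true, A i i = -((t : K) • ∑ i with o i = true, (E i i).hom) := by
      rw [Finset.smul_sum, ← Finset.sum_neg_distrib]
      refine Finset.sum_congr rfl fun i hi => ?_
      rw [hA, (Finset.mem_filter.1 hi).2]
      simp [sg]
    rw [h1, h2, sub_neg_eq_add, ← smul_add, ← units_sum R hU]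
    congr 1
    rw [← Finset.sum_filter_add_sum_filter_not Finset.univ (fun i => o i = false)]
    congr 1
    exact Finset.sum_congr (Finset.filter_congr fun i _ => by simp) fun _ _ => rfl

/-- The dual family. -/
theorem exists_dual [CharZero K] {M : C} {e : ι → ι → (R.H.obj M ⟶ R.H.obj M)}
    (hU : Units R M o e) {v : Module.Basis ι K (R.H.obj M)}
    (hv : ∀ i k j, (e i k).hom (v j) = if j = i then v k else 0) :
    ∃ y : ι → R.H.obj Mᘁ, (coe R M).hom (1 : K) = ∑ k, v k ⊗ₜ[K] y k ∧
      (∀ k j, B R M (y k) (v j) = if j = k then 1 else 0) ∧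
      Units R Mᘁ o (fun i k => ModuleCat.ofHom (((B R M).flip (v i)).smulRight (y k))) := by
  obtain ⟨y, hy⟩ := exists_expand v (((coe R M).hom : K →ₗ[K] TensorProduct K (R.H.obj M)
    (R.H.obj Mᘁ)) (1 : K))
  have hd : ∀ k j, B R M (y k) (v j) = if j = k then 1 else 0 := by
    intro k j
    have h1 := zz1 R hy (v j)
    have h2 := congrArg (fun x => v.repr x k) h1
    simp only [map_sum, map_smul, Module.Basis.repr_self, Finsupp.coe_finsetSum,
      Finset.sum_apply, Finsupp.smul_apply, Finsupp.single_apply, smul_eq_mul, mul_ite, mul_one,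
      mul_zero, Finset.sum_ite_eq', Finset.mem_univ, if_true] at h2
    exact h2
  have hfin := R.finite Mᘁ
  refine ⟨y, hy, hd, ?_, ?_, ?_, ?_⟩
  · intro i k j l
    apply ModuleCat.hom_ext
    rw [ModuleCat.hom_comp]
    ext x
    simp only [ModuleCat.hom_ofHom, LinearMap.comp_apply, LinearMap.smulRight_apply,
      LinearMap.flip_apply, map_smul, hd, smul_eq_mul]
    by_cases h : k = j
    · subst h
      simp
    · simp [h, Ne.symm h]
  · apply ModuleCat.hom_ext
    rw [ModuleCat.hom_sum]
    ext x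
    rw [LinearMap.sum_apply]
    exact zz2 R hy x
  · apply ModuleCat.hom_ext
    rw [ModuleCat.hom_sum]
    ext x
    rw [LinearMap.sum_apply]
    have h1 := zz2 R hy ((R.par Mᘁ).hom x)
    rw [← h1]
    refine Finset.sum_congr rfl fun k _ => ?_
    have h2 : B R M ((R.par Mᘁ).hom x) (v k) = sg K (o k) * B R M x (v k) := by
      rw [← B_par R M x (v k), units_par_basis R hU hv k, map_smul, smul_eq_mul, ← mul_assoc,
        sg_sq, one_mul]
    rw [h2, mul_smul]
    rfl
  · intro i k
    rw [ModuleCat.hom_ofHom, trace_smulRight, LinearMap.flip_apply, hd]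

end

theorem p_dul : P_DUL.{u, v, w} := by
  intro C _ _ _ _ _ _ _ _ K _ R M ι _ _ o e hU
  have hc := R_charZero R
  obtain ⟨v, hv⟩ := units_basis R hU
  obtain ⟨y, hy, hd, hU'⟩ := exists_dual R hU hv
  refine ⟨_, hU', ⟨?_, ?_, ?_⟩, ?_⟩
  · rw [Re, map_omD]
    have key : -(eva R M ≫ coe R M) = ∑ i, ∑ k, (e i k ⊗ₘ ModuleCat.ofHom
        (-(sg K (o i)) • (ModuleCat.ofHom (((B R M).flip (v i)).smulRight (y k)) :
          R.H.obj Mᘁ ⟶ R.H.obj Mᘁ).hom)) := by
      apply ModuleCat.hom_ext
      refine tensor_ext_basis v _ _ fun p x => ?_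
      rw [ModuleCat.hom_neg, LinearMap.neg_apply, ModuleCat.hom_comp, LinearMap.comp_apply]
      have h1 : (coe R M).hom ((eva R M).hom (v p ⊗ₜ[K] x)) =
          (sg K (o p) * B R M x (v p)) • (coe R M).hom (1 : K) := by
        rw [eva_apply R two_ne_zero, units_par_basis R hU hv, map_smul]
        have h2 := (coe R M).hom.map_smul (sg K (o p) • B R M x (v p)) (1 : K)
        rw [smul_eq_mul, mul_one] at h2
        exact h2
      have h3 : (∑ i, ∑ k, (e i k ⊗ₘ ModuleCat.ofHom
          (-(sg K (o i)) • (ModuleCat.ofHom (((B R M).flip (v i)).smulRight (y k)) :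
          R.H.obj Mᘁ ⟶ R.H.obj Mᘁ).hom))).hom (v p ⊗ₜ[K] x) =
          ∑ i, ∑ k, ((e i k).hom (v p)) ⊗ₜ[K] (-(sg K (o i)) • (B R M x (v i) • y k)) := by
        rw [ModuleCat.hom_sum, LinearMap.sum_apply]
        refine Finset.sum_congr rfl fun i _ => ?_
        rw [ModuleCat.hom_sum, LinearMap.sum_apply]
        rfl
      refine Eq.trans ?_ h3.symm
      refine (congrArg Neg.neg h1).trans ?_
      symm
      rw [hy, Finset.sum_eq_single p]
      · rw [Finset.smul_sum, ← Finset.sum_neg_distrib]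
        refine Finset.sum_congr rfl fun k _ => ?_
        rw [hv, if_pos rfl, TensorProduct.tmul_smul, TensorProduct.tmul_smul, smul_smul, ← neg_smul]
        congr 1
        ring
      · intro i _ hi
        refine Finset.sum_eq_zero fun k _ => ?_
        rw [hv, if_neg hi.symm, TensorProduct.zero_tmul]
      · intro h
        exact absurd (Finset.mem_univ p) h
    rw [key]
    simp only [Preadditive.sum_comp, Preadditive.comp_sum]
    rfl
  · exact glRel_dual _ (units_mul R hU')
  · exact parRel_scal _ (units_mul R hU') _ (units_par R hU') _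
  · refine wt_units R hU' (-1) (Or.inr rfl) _ fun i => ?_
    simp

end Pool.Agent.W2helper20.SG
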